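import Mathlib

/-!
# Module I1: from two-dimensional sequences to three-dimensional point sets

`core3_of` adds the index as a third coordinate and `boxes_of` passes from corner boxes to
all half-open boxes by inclusion and exclusion.
-/

namespace Pool.Agent.helper82.Disc
open Finset

/-- A finite sequence of points in the square with all initial segments well distributed gives
a point set in the cube. -/
theorem core3_of (N : ℕ) (hN : 0 < N) (D : ℝ)
    (hcore : ∃ z : ℕ → ℝ × ℝ,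
      (∀ i, (z i).1 ∈ Set.Ico (0 : ℝ) 1 ∧ (z i).2 ∈ Set.Ico (0 : ℝ) 1) ∧
      (∀ i < N, ∀ j < N, i ≠ j → (z i).1 ≠ (z j).1 ∧ (z i).2 ≠ (z j).2) ∧
      ∀ k ≤ N, ∀ x ∈ Set.Icc (0 : ℝ) 1, ∀ y ∈ Set.Icc (0 : ℝ) 1,
        |(((Finset.range k).filter (fun i => (z i).1 < x ∧ (z i).2 < y)).card : ℝ)
          - k * x * y| ≤ D) :
    ∃ p : Fin N → Fin 3 → ℝ, (∀ i j, p i j ∈ Set.Ico (0 : ℝ) 1) ∧
      (∀ i i' j, i ≠ i' → p i j ≠ p i' j) ∧
      ∀ t : Fin 3 → ℝ, (∀ j, t j ∈ Set.Icc (0 : ℝ) 1) →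
        |((Finset.univ.filter (fun i => ∀ j, p i j < t j)).card : ℝ) - (N : ℝ) * ∏ j, t j|
          ≤ D + 1 := by
  obtain ⟨z, hz, hinj, hD⟩ := hcore
  have hN' : (0 : ℝ) < N := by exact_mod_cast hN
  refine ⟨fun i => ![(z i.val).1, (z i.val).2, (i.val : ℝ) / N], ?_, ?_, ?_⟩
  · intro i j
    fin_cases j
    · exact (hz i.val).1
    · exact (hz i.val).2
    · refine ⟨?_, ?_⟩
      · show (0 : ℝ) ≤ (i.val : ℝ) / N
        positivity
      · show (i.val : ℝ) / N < 1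
        rw [div_lt_one hN']
        exact_mod_cast i.isLt
  · intro i i' j hii
    have hv : i.val ≠ i'.val := fun h => hii (Fin.ext h)
    have h12 := hinj i.val i.isLt i'.val i'.isLt hv
    fin_cases j
    · exact h12.1
    · exact h12.2
    · show (i.val : ℝ) / N ≠ (i'.val : ℝ) / N
      intro h
      apply hv
      have h2 : (i.val : ℝ) = (i'.val : ℝ) := by
        field_simp at h
        exact h
      exact_mod_cast h2
  · intro t ht
    have hT0 : 0 ≤ t 2 * N := mul_nonneg (ht 2).1 hN'.le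
    have hk : ⌈t 2 * N⌉₊ ≤ N := by
      rw [Nat.ceil_le]
      have := (ht 2).2
      nlinarith
    have hcard : (Finset.univ.filter (fun i : Fin N =>
        ∀ j, (![(z i.val).1, (z i.val).2, (i.val : ℝ) / N] : Fin 3 → ℝ) j < t j)).card
        = ((Finset.range ⌈t 2 * N⌉₊).filter
            (fun i => (z i).1 < t 0 ∧ (z i).2 < t 1)).card := by
      refine Finset.card_bij (fun i _ => i.val) ?_ ?_ ?_
      · intro i hi
        rw [Finset.mem_filter] at hi
        have h0 := hi.2 0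
        have h1 := hi.2 1
        have h2 : (i.val : ℝ) / N < t 2 := hi.2 2
        rw [Finset.mem_filter, Finset.mem_range]
        refine ⟨?_, h0, h1⟩
        rw [Nat.lt_ceil]
        rwa [div_lt_iff₀ hN'] at h2
      · intro i _ i' _ h
        exact Fin.ext h
      · intro i hi
        rw [Finset.mem_filter, Finset.mem_range, Nat.lt_ceil] at hi
        have hiN : i < N := by
          have h1 : (i : ℝ) < N := by
            have := (ht 2).2
            nlinarith [hi.1]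
          exact_mod_cast h1
        refine ⟨⟨i, hiN⟩, ?_, rfl⟩
        rw [Finset.mem_filter]
        refine ⟨Finset.mem_univ _, ?_⟩
        intro j
        fin_cases j
        · exact hi.2.1
        · exact hi.2.2
        · show (i : ℝ) / N < t 2
          rw [div_lt_iff₀ hN']
          exact hi.1
    rw [hcard, Fin.prod_univ_three]
    have h1 := hD ⌈t 2 * N⌉₊ hk (t 0) (ht 0) (t 1) (ht 1)
    have hc1 : t 2 * N ≤ (⌈t 2 * N⌉₊ : ℝ) := Nat.le_ceil _
    have hc2 : (⌈t 2 * N⌉₊ : ℝ) < t 2 * N + 1 := Nat.ceil_lt_add_one hT0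
    have h01 : 0 ≤ t 0 * t 1 := mul_nonneg (ht 0).1 (ht 1).1
    have h01' : t 0 * t 1 ≤ 1 := by
      have a1 := (ht 0).1
      have a2 := (ht 0).2
      have a3 := (ht 1).1
      have a4 := (ht 1).2
      nlinarith
    have h2 : |(⌈t 2 * N⌉₊ : ℝ) * t 0 * t 1 - (N : ℝ) * (t 0 * t 1 * t 2)| ≤ 1 := by
      have : (⌈t 2 * N⌉₊ : ℝ) * t 0 * t 1 - (N : ℝ) * (t 0 * t 1 * t 2)
          = ((⌈t 2 * N⌉₊ : ℝ) - t 2 * N) * (t 0 * t 1) := by ring
      rw [this, abs_le]
      constructor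
      · nlinarith
      · nlinarith
    rw [abs_le] at h1 h2 ⊢
    constructor
    · linarith [h1.1, h2.1]
    · linarith [h1.2, h2.2]

/-- Inclusion and exclusion: from corner boxes to half-open boxes. -/
theorem boxes_of {ι : Type} [Fintype ι] (p : ι → Fin 3 → ℝ) (A D : ℝ)
    (h : ∀ t : Fin 3 → ℝ, (∀ j, t j ∈ Set.Icc (0 : ℝ) 1) →
        |((Finset.univ.filter (fun i => ∀ j, p i j < t j)).card : ℝ) - A * ∏ j, t j| ≤ D)
    (s t : Fin 3 → ℝ) (hst : ∀ j, 0 ≤ s j ∧ s j ≤ t j ∧ t j ≤ 1) :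
    |((Finset.univ.filter (fun i => ∀ j, s j ≤ p i j ∧ p i j < t j)).card : ℝ)
      - A * ∏ j, (t j - s j)| ≤ 8 * D := by
  classical
  -- corner counts
  have key : ∀ a b c : ℝ, a ∈ Set.Icc (0 : ℝ) 1 → b ∈ Set.Icc (0 : ℝ) 1 →
      c ∈ Set.Icc (0 : ℝ) 1 →
      |(∑ i, (if p i 0 < a then (1 : ℝ) else 0) * (if p i 1 < b then (1 : ℝ) else 0) *
        (if p i 2 < c then (1 : ℝ) else 0)) - A * (a * b * c)| ≤ D := by
    intro a b c ha hb hc
    have h1 := h ![a, b, c] (by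
      intro j
      fin_cases j
      · exact ha
      · exact hb
      · exact hc)
    rw [Fin.prod_univ_three] at h1
    have h2 : ((Finset.univ.filter (fun i => ∀ j, p i j < (![a, b, c] : Fin 3 → ℝ) j)).card : ℝ)
        = ∑ i, (if p i 0 < a then (1 : ℝ) else 0) * (if p i 1 < b then (1 : ℝ) else 0) *
        (if p i 2 < c then (1 : ℝ) else 0) := by
      rw [Finset.card_filter, Nat.cast_sum]
      refine Finset.sum_congr rfl (fun i _ => ?_)
      have h3 : (∀ j, p i j < (![a, b, c] : Fin 3 → ℝ) j) ↔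
          (p i 0 < a ∧ p i 1 < b ∧ p i 2 < c) := by
        rw [Fin.forall_fin_succ, Fin.forall_fin_succ, Fin.forall_fin_succ]
        simp
      by_cases h4 : p i 0 < a
      · by_cases h5 : p i 1 < b
        · by_cases h6 : p i 2 < c
          · rw [if_pos (h3.2 ⟨h4, h5, h6⟩), if_pos h4, if_pos h5, if_pos h6]; norm_num
          · rw [if_neg (fun h7 => h6 (h3.1 h7).2.2), if_neg h6]; norm_num
        · rw [if_neg (fun h7 => h5 (h3.1 h7).2.1), if_neg h5]; norm_num
      · rw [if_neg (fun h7 => h4 (h3.1 h7).1), if_neg h4]; norm_num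
    rw [h2] at h1
    exact h1
  have hbox : ((Finset.univ.filter (fun i => ∀ j, s j ≤ p i j ∧ p i j < t j)).card : ℝ)
      = ∑ i, ((if p i 0 < t 0 then (1 : ℝ) else 0) - (if p i 0 < s 0 then (1 : ℝ) else 0)) *
        ((if p i 1 < t 1 then (1 : ℝ) else 0) - (if p i 1 < s 1 then (1 : ℝ) else 0)) *
        ((if p i 2 < t 2 then (1 : ℝ) else 0) - (if p i 2 < s 2 then (1 : ℝ) else 0)) := by
    rw [Finset.card_filter, Nat.cast_sum]
    refine Finset.sum_congr rfl (fun i _ => ?_)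
    have hd : ∀ j : Fin 3, ((if p i j < t j then (1 : ℝ) else 0) -
        (if p i j < s j then (1 : ℝ) else 0)) =
        if (s j ≤ p i j ∧ p i j < t j) then 1 else 0 := by
      intro j
      have h1 := (hst j).2.1
      by_cases h2 : p i j < s j
      · rw [if_pos h2, if_pos (lt_of_lt_of_le h2 h1), if_neg (fun h3 => absurd h2 (not_lt.2 h3.1))]
        norm_num
      · by_cases h3 : p i j < t j
        · rw [if_neg h2, if_pos h3, if_pos ⟨not_lt.1 h2, h3⟩]
          norm_num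
        · rw [if_neg h2, if_neg h3, if_neg (fun h4 => h3 h4.2)]
          norm_num
    rw [hd 0, hd 1, hd 2]
    have h3 : (∀ j, s j ≤ p i j ∧ p i j < t j) ↔
        ((s 0 ≤ p i 0 ∧ p i 0 < t 0) ∧ (s 1 ≤ p i 1 ∧ p i 1 < t 1) ∧
          (s 2 ≤ p i 2 ∧ p i 2 < t 2)) := by
      constructor
      · intro h
        exact ⟨h 0, h 1, h 2⟩
      · rintro ⟨h0, h1, h2⟩ j
        fin_cases j
        · exact h0
        · exact h1
        · exact h2
    by_cases h4 : (s 0 ≤ p i 0 ∧ p i 0 < t 0)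
    · by_cases h5 : (s 1 ≤ p i 1 ∧ p i 1 < t 1)
      · by_cases h6 : (s 2 ≤ p i 2 ∧ p i 2 < t 2)
        · rw [if_pos (h3.2 ⟨h4, h5, h6⟩), if_pos h4, if_pos h5, if_pos h6]; norm_num
        · rw [if_neg (fun h7 => h6 (h3.1 h7).2.2), if_neg h6]; norm_num
      · rw [if_neg (fun h7 => h5 (h3.1 h7).2.1), if_neg h5]; norm_num
    · rw [if_neg (fun h7 => h4 (h3.1 h7).1), if_neg h4]; norm_num
  have hs : ∀ j, s j ∈ Set.Icc (0 : ℝ) 1 := fun j =>
    ⟨(hst j).1, le_trans (hst j).2.1 (hst j).2.2⟩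
  have ht : ∀ j, t j ∈ Set.Icc (0 : ℝ) 1 := fun j =>
    ⟨le_trans (hst j).1 (hst j).2.1, (hst j).2.2⟩
  have k1 := key _ _ _ (ht 0) (ht 1) (ht 2)
  have k2 := key _ _ _ (hs 0) (ht 1) (ht 2)
  have k3 := key _ _ _ (ht 0) (hs 1) (ht 2)
  have k4 := key _ _ _ (ht 0) (ht 1) (hs 2)
  have k5 := key _ _ _ (hs 0) (hs 1) (ht 2)
  have k6 := key _ _ _ (hs 0) (ht 1) (hs 2)
  have k7 := key _ _ _ (ht 0) (hs 1) (hs 2)
  have k8 := key _ _ _ (hs 0) (hs 1) (hs 2)
  have hexp : (∑ i, ((if p i 0 < t 0 then (1 : ℝ) else 0) - (if p i 0 < s 0 then (1 : ℝ) else 0)) *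
        ((if p i 1 < t 1 then (1 : ℝ) else 0) - (if p i 1 < s 1 then (1 : ℝ) else 0)) *
        ((if p i 2 < t 2 then (1 : ℝ) else 0) - (if p i 2 < s 2 then (1 : ℝ) else 0)))
      = (∑ i, (if p i 0 < t 0 then (1 : ℝ) else 0) * (if p i 1 < t 1 then (1 : ℝ) else 0) *
        (if p i 2 < t 2 then (1 : ℝ) else 0))
      - (∑ i, (if p i 0 < s 0 then (1 : ℝ) else 0) * (if p i 1 < t 1 then (1 : ℝ) else 0) *
        (if p i 2 < t 2 then (1 : ℝ) else 0))
      - (∑ i, (if p i 0 < t 0 then (1 : ℝ) else 0) * (if p i 1 < s 1 then (1 : ℝ) else 0) *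
        (if p i 2 < t 2 then (1 : ℝ) else 0))
      - (∑ i, (if p i 0 < t 0 then (1 : ℝ) else 0) * (if p i 1 < t 1 then (1 : ℝ) else 0) *
        (if p i 2 < s 2 then (1 : ℝ) else 0))
      + (∑ i, (if p i 0 < s 0 then (1 : ℝ) else 0) * (if p i 1 < s 1 then (1 : ℝ) else 0) *
        (if p i 2 < t 2 then (1 : ℝ) else 0))
      + (∑ i, (if p i 0 < s 0 then (1 : ℝ) else 0) * (if p i 1 < t 1 then (1 : ℝ) else 0) *
        (if p i 2 < s 2 then (1 : ℝ) else 0))
      + (∑ i, (if p i 0 < t 0 then (1 : ℝ) else 0) * (if p i 1 < s 1 then (1 : ℝ) else 0) *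
        (if p i 2 < s 2 then (1 : ℝ) else 0))
      - (∑ i, (if p i 0 < s 0 then (1 : ℝ) else 0) * (if p i 1 < s 1 then (1 : ℝ) else 0) *
        (if p i 2 < s 2 then (1 : ℝ) else 0)) := by
    rw [← Finset.sum_sub_distrib, ← Finset.sum_sub_distrib, ← Finset.sum_sub_distrib,
      ← Finset.sum_add_distrib, ← Finset.sum_add_distrib, ← Finset.sum_add_distrib,
      ← Finset.sum_sub_distrib]
    refine Finset.sum_congr rfl (fun i _ => ?_)
    ring
  rw [hbox, hexp, Fin.prod_univ_three]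
  rw [abs_le] at k1 k2 k3 k4 k5 k6 k7 k8 ⊢
  constructor
  · nlinarith [k1.1, k2.2, k3.2, k4.2, k5.1, k6.1, k7.1, k8.2]
  · nlinarith [k1.2, k2.1, k3.1, k4.1, k5.2, k6.2, k7.2, k8.1]

end Pool.Agent.helper82.Disc
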