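import Mathlib

/-!
# Module J: every length

`all_M_of` derives a bound for every length `M` from the bound `20 n ^ 2` for the lengths
`b ^ n` with `b` prime and `b ^ 5 ≤ n`; the base `b` is chosen of size about
`(log M) ^ (1 / 7)` by Bertrand's postulate.
-/

namespace Pool.Agent.helper82.Disc
open Finset

theorem one_lt_log_of_three_le (M : ℕ) (hM : 3 ≤ M) : 1 < Real.log M := by
  rw [Real.lt_log_iff_exp_lt (by positivity)]
  have h1 := Real.exp_one_lt_d9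
  have h2 : (3 : ℝ) ≤ M := by exact_mod_cast hM
  linarith

/-- Choice of the base and of the number of digits. -/
theorem exists_base (M : ℕ) (hM : 3 ≤ M) (hL : (64 : ℝ) ^ (7 : ℕ) ≤ Real.log M) :
    ∃ b n : ℕ, b.Prime ∧ b ^ 5 ≤ n ∧ M ≤ b ^ n ∧
      (n : ℝ) ≤ 14 * (Real.log M / Real.log (Real.log M)) := by
  set L : ℝ := Real.log M with hLdef
  have hMpos : (0 : ℝ) < M := by positivity
  have hL1 : 1 < L := one_lt_log_of_three_le M hM
  have hL0 : 0 < L := by linarith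
  have hlogL : 0 < Real.log L := Real.log_pos hL1
  set r : ℝ := L ^ ((1 : ℝ) / 7) with hr
  have hr7 : r ^ (7 : ℕ) = L := by
    rw [hr, ← Real.rpow_natCast, ← Real.rpow_mul hL0.le]
    norm_num
  have hr0 : 0 < r := Real.rpow_pos_of_pos hL0 _
  have hr64 : 64 ≤ r := by
    by_contra hlt
    push Not at hlt
    have : r ^ (7 : ℕ) < (64 : ℝ) ^ (7 : ℕ) := pow_lt_pow_left₀ hlt hr0.le (by norm_num)
    rw [hr7] at this
    linarith
  have hB : ⌊r⌋₊ ≠ 0 := by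
    have : (1 : ℕ) ≤ ⌊r⌋₊ := Nat.le_floor (by push_cast; linarith)
    omega
  obtain ⟨b, hbp, hb1, hb2⟩ := Nat.exists_prime_lt_and_le_two_mul ⌊r⌋₊ hB
  have hbr : r < b := by
    have h1 : r < (⌊r⌋₊ : ℝ) + 1 := Nat.lt_floor_add_one r
    have h2 : ((⌊r⌋₊ : ℝ) + 1) ≤ b := by exact_mod_cast hb1
    linarith
  have hb2r : (b : ℝ) ≤ 2 * r := by
    have h1 : (⌊r⌋₊ : ℝ) ≤ r := Nat.floor_le hr0.le
    have h2 : (b : ℝ) ≤ 2 * (⌊r⌋₊ : ℝ) := by exact_mod_cast hb2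
    linarith
  have hb0 : (0 : ℝ) < b := by linarith
  have hb1' : (1 : ℝ) < b := by linarith
  have hlogb : 0 < Real.log b := Real.log_pos hb1'
  have hlogb1 : Real.log L / 7 ≤ Real.log b := by
    have h1 : Real.log r = Real.log L / 7 := by
      rw [hr, Real.log_rpow hL0]
      ring
    rw [← h1]
    exact Real.log_le_log hr0 hbr.le
  have hlogb2 : Real.log b ≤ 2 * r := by
    have := Real.log_le_sub_one_of_pos hb0
    linarith
  -- b ^ 5 * log b ≤ L
  have hkey : (b : ℝ) ^ 5 * Real.log b ≤ L := by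
    calc (b : ℝ) ^ 5 * Real.log b ≤ (2 * r) ^ 5 * (2 * r) := by
          gcongr
      _ = 64 * r ^ 6 := by ring
      _ ≤ r * r ^ 6 := by gcongr
      _ = L := by rw [← hr7]; ring
  refine ⟨b, ⌈L / Real.log b⌉₊, hbp, ?_, ?_, ?_⟩
  · have h1 : ((b ^ 5 : ℕ) : ℝ) ≤ L / Real.log b := by
      rw [le_div_iff₀ hlogb]
      push_cast
      exact hkey
    have h2 : ((b ^ 5 : ℕ) : ℝ) ≤ (⌈L / Real.log b⌉₊ : ℝ) := le_trans h1 (Nat.le_ceil _)
    exact_mod_cast h2
  · have h1 : (M : ℝ) ≤ (b : ℝ) ^ (⌈L / Real.log b⌉₊ : ℕ) := by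
      rw [← Real.exp_log hMpos, ← Real.exp_log (pow_pos hb0 _)]
      rw [Real.exp_le_exp, Real.log_pow]
      have h2 : L / Real.log b ≤ (⌈L / Real.log b⌉₊ : ℝ) := Nat.le_ceil _
      rw [div_le_iff₀ hlogb] at h2
      exact h2
    exact_mod_cast h1
  · have h0 : 0 ≤ L / Real.log b := by positivity
    have h1 : (⌈L / Real.log b⌉₊ : ℝ) < L / Real.log b + 1 := Nat.ceil_lt_add_one h0
    have hb5 : (1 : ℝ) ≤ (b : ℝ) ^ 5 := one_le_pow₀ hb1'.le
    have h2 : 1 ≤ L / Real.log b := by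
      rw [le_div_iff₀ hlogb]
      nlinarith
    have h3 : L / Real.log b ≤ 7 * (L / Real.log L) := by
      rw [div_le_iff₀ hlogb]
      have : L = 7 * (L / Real.log L) * (Real.log L / 7) := by
        field_simp
      calc L = 7 * (L / Real.log L) * (Real.log L / 7) := this
        _ ≤ 7 * (L / Real.log L) * Real.log b := by gcongr
    linarith

/-- Every length. -/
theorem all_M_of
    (hcore : ∀ (b : ℕ) (_ : b.Prime) (n : ℕ) (_ : b ^ 5 ≤ n),
      ∃ z : ℕ → ℝ × ℝ, (∀ i, (z i).1 ∈ Set.Ico (0 : ℝ) 1 ∧ (z i).2 ∈ Set.Ico (0 : ℝ) 1) ∧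
      (∀ i < b ^ n, ∀ j < b ^ n, i ≠ j → (z i).1 ≠ (z j).1 ∧ (z i).2 ≠ (z j).2) ∧
      ∀ k ≤ b ^ n, ∀ x ∈ Set.Icc (0 : ℝ) 1, ∀ y ∈ Set.Icc (0 : ℝ) 1,
        |(((Finset.range k).filter (fun i => (z i).1 < x ∧ (z i).2 < y)).card : ℝ)
          - k * x * y| ≤ 20 * (n : ℝ) ^ 2) :
    ∃ C : ℝ, 0 < C ∧ ∀ M : ℕ, 3 ≤ M →
    ∃ z : ℕ → ℝ × ℝ, (∀ i, (z i).1 ∈ Set.Ico (0 : ℝ) 1 ∧ (z i).2 ∈ Set.Ico (0 : ℝ) 1) ∧
      ∀ k ≤ M, ∀ x ∈ Set.Icc (0 : ℝ) 1, ∀ y ∈ Set.Icc (0 : ℝ) 1,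
        |(((Finset.range k).filter (fun i => (z i).1 < x ∧ (z i).2 < y)).card : ℝ)
          - k * x * y| ≤ C * (Real.log M / Real.log (Real.log M)) ^ 2 := by
  refine ⟨3920 + Real.exp ((64 : ℝ) ^ (7 : ℕ)), by positivity, ?_⟩
  intro M hM
  have hMpos : (0 : ℝ) < M := by positivity
  have hL1 : 1 < Real.log M := one_lt_log_of_three_le M hM
  have hlogL : 0 < Real.log (Real.log M) := Real.log_pos hL1
  rcases le_or_gt ((64 : ℝ) ^ (7 : ℕ)) (Real.log M) with hbig | hsmall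
  · obtain ⟨b, n, hbp, hb5, hMb, hn⟩ := exists_base M hM hbig
    obtain ⟨z, hz, -, hD⟩ := hcore b hbp n hb5
    refine ⟨z, hz, ?_⟩
    intro k hk x hx y hy
    refine le_trans (hD k (le_trans hk hMb) x hx y hy) ?_
    have h1 : (n : ℝ) ^ 2 ≤ (14 * (Real.log M / Real.log (Real.log M))) ^ 2 := by
      gcongr
    have h2 : 0 ≤ Real.exp ((64 : ℝ) ^ (7 : ℕ)) := (Real.exp_pos _).le
    calc 20 * (n : ℝ) ^ 2 ≤ 20 * (14 * (Real.log M / Real.log (Real.log M))) ^ 2 := by gcongr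
      _ = 3920 * (Real.log M / Real.log (Real.log M)) ^ 2 := by ring
      _ ≤ (3920 + Real.exp ((64 : ℝ) ^ (7 : ℕ))) *
          (Real.log M / Real.log (Real.log M)) ^ 2 := by
        gcongr
        linarith
  · refine ⟨fun _ => (0, 0), ?_, ?_⟩
    · intro i
      simp
    · intro k hk x hx y hy
      have hMe : (M : ℝ) ≤ Real.exp ((64 : ℝ) ^ (7 : ℕ)) := by
        rw [← Real.exp_log hMpos]
        exact Real.exp_le_exp.2 hsmall.le
      have hkM : (k : ℝ) ≤ M := by exact_mod_cast hk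
      have hcard0 : (0 : ℝ) ≤ ((((Finset.range k).filter
          (fun i => (((fun _ => (0, 0)) : ℕ → ℝ × ℝ) i).1 < x ∧
            (((fun _ => (0, 0)) : ℕ → ℝ × ℝ) i).2 < y)).card : ℕ) : ℝ) := Nat.cast_nonneg _
      have hcard1 : ((((Finset.range k).filter
          (fun i => (((fun _ => (0, 0)) : ℕ → ℝ × ℝ) i).1 < x ∧
            (((fun _ => (0, 0)) : ℕ → ℝ × ℝ) i).2 < y)).card : ℕ) : ℝ) ≤ k := by
        have := Finset.card_filter_le (Finset.range k)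
          (fun i => (((fun _ => (0, 0)) : ℕ → ℝ × ℝ) i).1 < x ∧
            (((fun _ => (0, 0)) : ℕ → ℝ × ℝ) i).2 < y)
        rw [Finset.card_range] at this
        exact_mod_cast this
      have hk0 : (0 : ℝ) ≤ k := Nat.cast_nonneg _
      have hxy0 : 0 ≤ (k : ℝ) * x * y := mul_nonneg (mul_nonneg hk0 hx.1) hy.1
      have hxy1 : (k : ℝ) * x * y ≤ k := by
        have h1 : (k : ℝ) * x ≤ k := by nlinarith [hx.2]
        have h2 : (k : ℝ) * x * y ≤ (k : ℝ) * x := by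
          have : 0 ≤ (k : ℝ) * x := mul_nonneg hk0 hx.1
          nlinarith [hy.2]
        linarith
      have hone : 1 ≤ (Real.log M / Real.log (Real.log M)) ^ 2 := by
        have h1 : 1 ≤ Real.log M / Real.log (Real.log M) := by
          rw [le_div_iff₀ hlogL]
          have := Real.log_le_sub_one_of_pos (by linarith : 0 < Real.log M)
          linarith
        exact one_le_pow₀ h1
      have hfin : (k : ℝ) ≤ (3920 + Real.exp ((64 : ℝ) ^ (7 : ℕ))) *
          (Real.log M / Real.log (Real.log M)) ^ 2 := by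
        calc (k : ℝ) ≤ Real.exp ((64 : ℝ) ^ (7 : ℕ)) := le_trans hkM hMe
          _ ≤ (3920 + Real.exp ((64 : ℝ) ^ (7 : ℕ))) * 1 := by linarith
          _ ≤ _ := by
            gcongr
      rw [abs_le]
      constructor
      · linarith
      · linarith

end Pool.Agent.helper82.Disc
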