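import Pool.Agent.helper52.Disc.H
import Pool.Agent.helper17.Disc.I1
import Pool.Agent.helper17.Disc.J

/-!
# Modules I1 and J, final forms

`core3`, `core3_boxes` and `all_M` are obtained from the core theorem.
-/

namespace Pool.Agent.helper82.Disc
open Finset

/-- Three-dimensional point sets: corner boxes. -/
theorem core3 (b : ℕ) (hb : b.Prime) (n : ℕ) (hn : b ^ 5 ≤ n) :
    ∃ p : Fin (b ^ n) → Fin 3 → ℝ, (∀ i j, p i j ∈ Set.Ico (0 : ℝ) 1) ∧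
      (∀ i i' j, i ≠ i' → p i j ≠ p i' j) ∧
      ∀ t : Fin 3 → ℝ, (∀ j, t j ∈ Set.Icc (0 : ℝ) 1) →
        |((Finset.univ.filter (fun i => ∀ j, p i j < t j)).card : ℝ) - (b : ℝ) ^ n * ∏ j, t j|
          ≤ 21 * (n : ℝ) ^ 2 := by
  have hn1 : 1 ≤ n := le_trans (Nat.one_le_pow _ _ hb.pos) hn
  have hn1' : (1 : ℝ) ≤ n := by exact_mod_cast hn1
  obtain ⟨p, hp, hinj, hD⟩ := core3_of (b ^ n) (pow_pos hb.pos n) (20 * (n : ℝ) ^ 2)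
    (core b hb n hn)
  refine ⟨p, hp, hinj, fun t ht => ?_⟩
  have h := hD t ht
  push_cast at h
  refine h.trans ?_
  nlinarith

/-- Three-dimensional point sets: all half-open boxes. -/
theorem core3_boxes (b : ℕ) (hb : b.Prime) (n : ℕ) (hn : b ^ 5 ≤ n) :
    ∃ p : Fin (b ^ n) → Fin 3 → ℝ, (∀ i j, p i j ∈ Set.Ico (0 : ℝ) 1) ∧
      (∀ i i' j, i ≠ i' → p i j ≠ p i' j) ∧
      ∀ s t : Fin 3 → ℝ, (∀ j, 0 ≤ s j ∧ s j ≤ t j ∧ t j ≤ 1) →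
        |((Finset.univ.filter (fun i => ∀ j, s j ≤ p i j ∧ p i j < t j)).card : ℝ)
            - (b : ℝ) ^ n * ∏ j, (t j - s j)| ≤ 168 * (n : ℝ) ^ 2 := by
  obtain ⟨p, hp, hinj, hD⟩ := core3 b hb n hn
  refine ⟨p, hp, hinj, fun s t hst => ?_⟩
  have h := boxes_of p ((b : ℝ) ^ n) (21 * (n : ℝ) ^ 2) hD s t hst
  linarith

/-- Finite sequences of every length. -/
theorem all_M : ∃ C : ℝ, 0 < C ∧ ∀ M : ℕ, 3 ≤ M →
    ∃ z : ℕ → ℝ × ℝ, (∀ i, (z i).1 ∈ Set.Ico (0 : ℝ) 1 ∧ (z i).2 ∈ Set.Ico (0 : ℝ) 1) ∧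
      ∀ k ≤ M, ∀ x ∈ Set.Icc (0 : ℝ) 1, ∀ y ∈ Set.Icc (0 : ℝ) 1,
        |(((Finset.range k).filter (fun i => (z i).1 < x ∧ (z i).2 < y)).card : ℝ)
          - k * x * y| ≤ C * (Real.log M / Real.log (Real.log M)) ^ 2 :=
  all_M_of core

end Pool.Agent.helper82.Disc
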