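import Pool.Agent.helper82.Disc.Defs

/-!
# Module B2: the average of the exponential of a row sum

`rowSum_avg_of` derives the average bound from the average bound of `Bt` for fixed `τ`
and from the formula of the row sum as a value of `Bt`.
-/

namespace Pool.Agent.helper82.Disc
open Finset

variable {F : Type} [Field F] [Fintype F] [DecidableEq F]

omit [DecidableEq F] in
/-- For fixed `m` the map `e ↦ ydig e m s` is a bijection, so a sum over `e` is a sum over `τ`. -/
theorem sum_ydig {k : ℕ} (m : Fin k → Fˣ) (s : Fin k → F) (g : F → ℝ) :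
    ∑ e : F, g (ydig e m s) = ∑ τ : F, g τ := by
  have h : ∀ e : F, ydig e m s = (Equiv.addRight (∑ j, (m j : F) * s j)) e := by
    intro e
    simp [ydig]
  simp_rw [h]
  exact Equiv.sum_comp (Equiv.addRight (∑ j, (m j : F) * s j)) g

theorem rowSum_avg_of {k : ℕ} (S : Str F k)
    (ψ : F → ℝ)
    (lam A : ℝ)
    (hBt : ∀ τ : F, ∑ m : Fin k → Fˣ, Real.exp (lam * Bt k S.u S.s S.L S.R S.cL S.cR ψ τ m) ≤ A)
    (hrow : ∀ (e : F) (m : Fin k → Fˣ),
      rowSum S ψ e m = Bt k S.u S.s S.L S.R S.cL S.cR ψ (ydig e m S.s) m) :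
    ∑ e : F, ∑ m : Fin k → Fˣ, Real.exp (lam * rowSum S ψ e m) ≤
      (Fintype.card F : ℝ) * A := by
  calc ∑ e : F, ∑ m : Fin k → Fˣ, Real.exp (lam * rowSum S ψ e m)
      = ∑ m : Fin k → Fˣ, ∑ e : F,
          Real.exp (lam * Bt k S.u S.s S.L S.R S.cL S.cR ψ (ydig e m S.s) m) := by
        rw [Finset.sum_comm]
        refine Finset.sum_congr rfl (fun m _ => Finset.sum_congr rfl (fun e _ => ?_))
        rw [hrow]
    _ = ∑ m : Fin k → Fˣ, ∑ τ : F,
          Real.exp (lam * Bt k S.u S.s S.L S.R S.cL S.cR ψ τ m) := by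
        refine Finset.sum_congr rfl (fun m _ => ?_)
        exact sum_ydig m S.s
          (fun τ => Real.exp (lam * Bt k S.u S.s S.L S.R S.cL S.cR ψ τ m))
    _ = ∑ τ : F, ∑ m : Fin k → Fˣ,
          Real.exp (lam * Bt k S.u S.s S.L S.R S.cL S.cR ψ τ m) := Finset.sum_comm
    _ ≤ ∑ _τ : F, A := Finset.sum_le_sum (fun τ _ => hBt τ)
    _ = (Fintype.card F : ℝ) * A := by
        rw [Finset.sum_const, Finset.card_univ, nsmul_eq_mul]

end Pool.Agent.helper82.Disc
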