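import Pool.Agent.helper17.Disc.B2
import Pool.Agent.helper92.Disc.A1
import Pool.Agent.helper92.Disc.B1

/-!
# Module B2, final form: the average over the rows
-/

namespace Pool.Agent.helper82.Disc
open Finset

variable {F : Type} [Field F] [Fintype F] [DecidableEq F]

theorem rowSum_avg {k : ℕ} (S : Str F k) (hS : S.Good)
    (ψ : F → ℝ) (hψ : ∀ y, |ψ y| ≤ 1) (hψ0 : ∑ y, ψ y = 0)
    (lam : ℝ) (hlam : |lam| * (2 * (Fintype.card F : ℝ) ^ 2) ≤ 1) :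
    ∑ e : F, ∑ m : Fin k → Fˣ, Real.exp (lam * rowSum S ψ e m) ≤
      (Fintype.card F : ℝ) * (Fintype.card Fˣ : ℝ) ^ k *
        Real.exp (|lam| * (2 * k + 1) + 4 * lam ^ 2 * (Fintype.card F : ℝ) ^ 4 * k) := by
  have h := rowSum_avg_of S ψ lam
    ((Fintype.card Fˣ : ℝ) ^ k *
        Real.exp (|lam| * (2 * k + 1) + 4 * lam ^ 2 * (Fintype.card F : ℝ) ^ 4 * k))
    (fun τ => Bt_avg k S.u S.s S.L S.R S.cL S.cR hS.hL hS.hR hS.hcL hS.hcR ψ hψ hψ0 lam hlam τ)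
    (fun e m => rowSum_eq_Bt S hS ψ hψ0 e m)
  rw [mul_assoc]
  exact h

end Pool.Agent.helper82.Disc
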